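import Pool.Agent.Helper20.EQ.St5

/-!
# Project EQ (MP_cb927e_an): module PIG (pigeonhole)
-/

set_option autoImplicit false

open MeasureTheory Set Filter Topology
open scoped ENNReal RealInnerProductSpace

namespace Pool.Agent.Helper14.EQ

open Pool.Agent.Helper68.LM (Pl BB Bd Av HL ft fm DQ)
open Pool.Agent.Helper20.RG Pool.Agent.Helper20.EQ
open Pool.Agent.Helper68.EP (elt GapP)

lemma pig_BB_zero : BB (fun _ : Pl => (0 : ℝ)) :=
  ⟨measurable_const, 0, fun _ => by simp, fun _ _ => rfl⟩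

lemma pig_BB_comb (a : ℝ) (g h : Pl → ℝ) (hg : BB g) (hh : BB h) : BB (fun y => a * g y + h y) := by
  obtain ⟨hgm, K1, hK1, hs1⟩ := hg
  obtain ⟨hhm, K2, hK2, hs2⟩ := hh
  refine ⟨(hgm.const_mul a).add hhm, max (|a| * K1 + K2) (max K1 K2), fun x => ?_, fun x hx => ?_⟩
  · refine le_trans ?_ (le_max_left _ _)
    calc |a * g x + h x| ≤ |a * g x| + |h x| := abs_add_le _ _
      _ = |a| * |g x| + |h x| := by rw [abs_mul]
      _ ≤ |a| * K1 + K2 := by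
        gcongr
        · exact hK1 x
        · exact hK2 x
  · have h1 : K1 < ‖x‖ := lt_of_le_of_lt ((le_max_left _ _).trans (le_max_right _ _)) hx
    have h2 : K2 < ‖x‖ := lt_of_le_of_lt ((le_max_right _ _).trans (le_max_right _ _)) hx
    simp [hs1 x h1, hs2 x h2]

lemma pig_BB_lev (f : Pl → ℝ) (hf : BB f) (J : ℤ) : BB (lev f J) := by
  obtain ⟨hm, K, hK, hs⟩ := hf
  refine ⟨?_, max K 1, fun x => ?_, fun x hx => ?_⟩
  · unfold lev
    refine Measurable.ite ?_ (hm.div_const _) measurable_const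
    exact (measurableSet_le measurable_const hm).inter (measurableSet_lt hm measurable_const)
  · refine le_trans ?_ (le_max_right _ _)
    unfold lev
    split_ifs with h
    · have h0 : (0 : ℝ) < (2 : ℝ) ^ J := by positivity
      have h1 : 0 ≤ f x := h0.le.trans h.1
      have h2 : (0 : ℝ) < (2 : ℝ) ^ (J + 1) := by positivity
      rw [abs_of_nonneg (by positivity), div_le_one h2]
      exact h.2.le
    · simp
  · have h1 : K < ‖x‖ := lt_of_le_of_lt (le_max_left _ _) hx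
    unfold lev
    rw [hs x h1]
    have h0 : (0 : ℝ) < (2 : ℝ) ^ J := by positivity
    rw [if_neg (fun h => absurd h.1 (not_le.2 h0))]

lemma pig_lev_mem (f : Pl → ℝ) (J : ℤ) (x : Pl) : 0 ≤ lev f J x ∧ lev f J x ≤ 1 := by
  unfold lev
  split_ifs with h
  · have h0 : (0 : ℝ) < (2 : ℝ) ^ J := by positivity
    have h1 : 0 ≤ f x := h0.le.trans h.1
    have h2 : (0 : ℝ) < (2 : ℝ) ^ (J + 1) := by positivity
    exact ⟨by positivity, by rw [div_le_one h2]; exact h.2.le⟩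
  · exact ⟨le_refl _, zero_le_one⟩

lemma pig_Y_sum (hYB : StYB) (s : ℝ) (c : Pl) (m : ℕ) (ℓ : ℝ) (k : ℤ) (hs : |s| ≤ 1) (hℓ : 0 < ℓ)
    (a : ℤ → ℝ) (G : ℤ → Pl → ℝ) (hG : ∀ J, BB (G J)) (S : Finset ℤ) :
    BB (fun y => ∑ J ∈ S, a J * G J y) ∧
    ∀ x, Y s c m ℓ k (fun y => ∑ J ∈ S, a J * G J y) x = ∑ J ∈ S, a J * Y s c m ℓ k (G J) x := by
  classical
  induction S using Finset.induction_on with
  | empty =>
    refine ⟨by simpa using pig_BB_zero, fun x => ?_⟩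
    have h := (hYB s c m ℓ k (fun _ => 0) hs hℓ pig_BB_zero).2.2.2.2 1 (fun _ => 0) pig_BB_zero x
    simp only [mul_zero, add_zero, one_mul] at h
    simp only [Finset.sum_empty]
    linarith
  | insert J S hJ ih =>
    have e : (fun y => ∑ J' ∈ insert J S, a J' * G J' y) =
        fun y => a J * G J y + (fun y => ∑ J' ∈ S, a J' * G J' y) y := by
      funext y
      rw [Finset.sum_insert hJ]
    rw [e]
    refine ⟨pig_BB_comb _ _ _ (hG J) ih.1, fun x => ?_⟩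
    rw [(hYB s c m ℓ k (G J) hs hℓ (hG J)).2.2.2.2 (a J) _ ih.1 x, ih.2 x, Finset.sum_insert hJ]

/-- the decomposition of `fh` -/
lemma pig_fh (f : Pl → ℝ) (l J₁ : ℤ) (h1 : ∀ x, f x < (2 : ℝ) ^ (J₁ + 1)) :
    fh l f = fun y => ∑ J ∈ Finset.Icc (l - 1) J₁, (2 : ℝ) ^ (J + 1) * lev f J y := by
  funext y
  unfold fh
  split_ifs with h
  · have hpos : 0 < f y := lt_of_lt_of_le (by positivity) h
    set J₀ : ℤ := Int.log 2 (f y) with hJ₀
    have ha : (2 : ℝ) ^ J₀ ≤ f y := by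
      have := Int.zpow_log_le_self (b := 2) (r := f y) (by norm_num) hpos
      exact_mod_cast this
    have hb : f y < (2 : ℝ) ^ (J₀ + 1) := by
      have := Int.lt_zpow_succ_log_self (b := 2) (by norm_num) (f y)
      exact_mod_cast this
    have h3 : l - 1 ≤ J₀ := by
      have : (2 : ℝ) ^ (l - 1) < (2 : ℝ) ^ (J₀ + 1) := lt_of_le_of_lt h hb
      have := (zpow_lt_zpow_iff_right₀ (by norm_num : (1 : ℝ) < 2)).1 this
      omega
    have h4 : J₀ ≤ J₁ := by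
      have : (2 : ℝ) ^ J₀ < (2 : ℝ) ^ (J₁ + 1) := lt_of_le_of_lt ha (h1 y)
      have := (zpow_lt_zpow_iff_right₀ (by norm_num : (1 : ℝ) < 2)).1 this
      omega
    rw [Finset.sum_eq_single J₀]
    · unfold lev
      rw [if_pos ⟨ha, hb⟩]
      field_simp
    · intro J _ hJ
      unfold lev
      rw [if_neg, mul_zero]
      rintro ⟨h5, h6⟩
      have h7 : (2 : ℝ) ^ J < (2 : ℝ) ^ (J₀ + 1) := lt_of_le_of_lt h5 hb
      have h8 : (2 : ℝ) ^ J₀ < (2 : ℝ) ^ (J + 1) := lt_of_le_of_lt ha h6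
      have h9 := (zpow_lt_zpow_iff_right₀ (by norm_num : (1 : ℝ) < 2)).1 h7
      have h10 := (zpow_lt_zpow_iff_right₀ (by norm_num : (1 : ℝ) < 2)).1 h8
      omega
    · intro hn
      exact absurd (Finset.mem_Icc.2 ⟨h3, h4⟩) hn
  · symm
    refine Finset.sum_eq_zero (fun J hJ => ?_)
    unfold lev
    rw [if_neg, mul_zero]
    rintro ⟨h5, _⟩
    apply h
    refine le_trans ?_ h5
    exact zpow_le_zpow_right₀ (by norm_num) (Finset.mem_Icc.1 hJ).1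

/-- dyadic bound of a number in `[0,1]` -/
lemma pig_dyadic (z : ℝ) (h0 : 0 ≤ z) (h1 : z ≤ 1) :
    ENNReal.ofReal z ≤ ∑' ρ : ℕ, (if (2 : ℝ) ^ (-((ρ : ℤ) + 1)) ≤ z then
      ENNReal.ofReal ((2 : ℝ) ^ (-(ρ : ℤ))) else 0) := by
  rcases h0.eq_or_lt with h | h
  · rw [← h]; simp
  · obtain ⟨n, hn1, hn2⟩ := exists_nat_pow_near_of_lt_one h h1 (by norm_num : (0 : ℝ) < 1 / 2)
      (by norm_num)
    refine le_trans ?_ (ENNReal.le_tsum n)
    have e1 : (2 : ℝ) ^ (-((n : ℤ) + 1)) = (1 / 2 : ℝ) ^ (n + 1) := by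
      rw [zpow_neg, ← inv_zpow, one_div]
      exact_mod_cast rfl
    have e2 : (2 : ℝ) ^ (-(n : ℤ)) = (1 / 2 : ℝ) ^ n := by
      rw [zpow_neg, ← inv_zpow, one_div]
      exact_mod_cast rfl
    rw [e1, e2, if_pos hn1.le]
    exact ENNReal.ofReal_le_ofReal hn2


/-- the bound of `Zc` for functions with values in `[0,1]` -/
lemma pig_Zc_le (hYB : StYB) (φ τ : ℝ → ℝ) (c : Pl) (hG : Graph φ τ) (u : ℕ) (k : ℤ) (j : ℕ)
    (g : Pl → ℝ) (hg : BB g) (hg1 : ∀ x, 0 ≤ g x ∧ g x ≤ 1) (x : Pl) :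
    |Zc c φ τ u 0 k j g x| ≤ 1 := by
  unfold Zc Z
  have h := fun m => hYB (sl τ u j) (ce c φ u j) m ((2 : ℝ) ^ 0) k g (hG.1 _) (by positivity) hg
  have a1 := (h (mm τ u j)).2.2.1 (fun y => (hg1 y).1) x
  have a2 := (h (mm τ u j)).2.2.2.1 1 (fun y => (hg1 y).2) x
  have b1 := (h (mp τ u j)).2.2.1 (fun y => (hg1 y).1) x
  have b2 := (h (mp τ u j)).2.2.2.1 1 (fun y => (hg1 y).2) x
  rw [abs_le]
  constructor <;> linarith

/-- decomposition of `Zc` of `fh` -/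
lemma pig_Zc_sum (hYB : StYB) (φ τ : ℝ → ℝ) (c : Pl) (hG : Graph φ τ) (f : Pl → ℝ) (hf : BB f)
    (l J₁ k : ℤ) (h1 : ∀ x, f x < (2 : ℝ) ^ (J₁ + 1)) (x : Pl) (u j : ℕ) :
    Zc c φ τ u 0 k j (fh l f) x =
      ∑ J ∈ Finset.Icc (l - 1) J₁, (2 : ℝ) ^ (J + 1) * Zc c φ τ u 0 k j (lev f J) x := by
  unfold Zc Z
  have h := fun m => (pig_Y_sum hYB (sl τ u j) (ce c φ u j) m ((2 : ℝ) ^ 0) k (hG.1 _) (by positivity)
    (fun J => (2 : ℝ) ^ (J + 1)) (fun J => lev f J) (pig_BB_lev f hf) (Finset.Icc (l - 1) J₁)).2 x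
  rw [pig_fh f l J₁ h1, h, h, ← Finset.sum_sub_distrib]
  refine Finset.sum_congr rfl (fun J _ => ?_)
  ring

/-- one class -/
lemma pig_Ht (hYB : StYB) (φ τ : ℝ → ℝ) (c : Pl) (hG : Graph φ τ) (f : Pl → ℝ) (hf : BB f)
    (l J₁ k : ℤ) (h1 : ∀ x, f x < (2 : ℝ) ^ (J₁ + 1)) (x : Pl) (u : ℕ) :
    Ht c φ τ u k (fh l f) x ≤ ∑' J : ℤ, ∑' ρ : ℕ,
      ENNReal.ofReal ((2 : ℝ) ^ (J + 1 - (u : ℤ) - (ρ : ℤ))) *
        ((Hh c φ τ u ρ k (lev f J) x).ncard : ℝ≥0∞) := by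
  classical
  have hcard : ∀ (ρ : ℕ) (J : ℤ), ((Hh c φ τ u ρ k (lev f J) x).ncard : ℝ≥0∞) =
      ∑ j ∈ Finset.range (2 ^ u), (if (2 : ℝ) ^ (-((ρ : ℤ) + 1)) ≤ |Zc c φ τ u 0 k j (lev f J) x| then
        (1 : ℝ≥0∞) else 0) := by
    intro ρ J
    have e : Hh c φ τ u ρ k (lev f J) x = ((Finset.range (2 ^ u)).filter
        (fun j => (2 : ℝ) ^ (-((ρ : ℤ) + 1)) ≤ |Zc c φ τ u 0 k j (lev f J) x|) : Finset ℕ) := by
      ext j
      simp [Hh]
    rw [e, Set.ncard_coe_finset, Finset.sum_ite, Finset.sum_const_zero, add_zero,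
      Finset.sum_const, nsmul_eq_mul, mul_one]
  have hone : ∀ j, ‖Zc c φ τ u 0 k j (fh l f) x‖ₑ ≤ ∑' J : ℤ, ∑' ρ : ℕ,
      ENNReal.ofReal ((2 : ℝ) ^ (J + 1)) * (ENNReal.ofReal ((2 : ℝ) ^ (-(ρ : ℤ))) *
        (if (2 : ℝ) ^ (-((ρ : ℤ) + 1)) ≤ |Zc c φ τ u 0 k j (lev f J) x| then (1 : ℝ≥0∞) else 0)) := by
    intro j
    rw [pig_Zc_sum hYB φ τ c hG f hf l J₁ k h1 x u j]
    refine (enorm_sum_le _ _).trans ?_
    refine le_trans ?_ (ENNReal.sum_le_tsum (Finset.Icc (l - 1) J₁))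
    refine Finset.sum_le_sum (fun J _ => ?_)
    rw [ENNReal.tsum_mul_left, enorm_mul]
    have e1 : ‖(2 : ℝ) ^ (J + 1)‖ₑ = ENNReal.ofReal ((2 : ℝ) ^ (J + 1)) := by
      rw [← ofReal_norm, Real.norm_eq_abs, abs_of_pos (by positivity)]
    rw [e1]
    gcongr
    have e2 : ‖Zc c φ τ u 0 k j (lev f J) x‖ₑ = ENNReal.ofReal |Zc c φ τ u 0 k j (lev f J) x| := by
      rw [← ofReal_norm, Real.norm_eq_abs]
    rw [e2]
    refine (pig_dyadic _ (abs_nonneg _) (pig_Zc_le hYB φ τ c hG u k j _ (pig_BB_lev f hf J)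
      (pig_lev_mem f J) x)).trans (le_of_eq ?_)
    refine tsum_congr (fun ρ => ?_)
    split_ifs <;> simp
  unfold Ht
  calc ENNReal.ofReal (1 / (2 : ℝ) ^ u) * ∑ j ∈ Finset.range (2 ^ u), ‖Zc c φ τ u 0 k j (fh l f) x‖ₑ
      ≤ ENNReal.ofReal (1 / (2 : ℝ) ^ u) * ∑ j ∈ Finset.range (2 ^ u), ∑' J : ℤ, ∑' ρ : ℕ,
      ENNReal.ofReal ((2 : ℝ) ^ (J + 1)) * (ENNReal.ofReal ((2 : ℝ) ^ (-(ρ : ℤ))) *
        (if (2 : ℝ) ^ (-((ρ : ℤ) + 1)) ≤ |Zc c φ τ u 0 k j (lev f J) x| then (1 : ℝ≥0∞) else 0)) := by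
        gcongr with j _
        exact hone j
    _ = ∑' J : ℤ, ∑' ρ : ℕ, ENNReal.ofReal (1 / (2 : ℝ) ^ u) * ∑ j ∈ Finset.range (2 ^ u),
      ENNReal.ofReal ((2 : ℝ) ^ (J + 1)) * (ENNReal.ofReal ((2 : ℝ) ^ (-(ρ : ℤ))) *
        (if (2 : ℝ) ^ (-((ρ : ℤ) + 1)) ≤ |Zc c φ τ u 0 k j (lev f J) x| then (1 : ℝ≥0∞) else 0)) := by
        rw [← Summable.tsum_finsetSum (fun _ _ => ENNReal.summable), ← ENNReal.tsum_mul_left]
        refine tsum_congr (fun J => ?_)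
        rw [← Summable.tsum_finsetSum (fun _ _ => ENNReal.summable), ← ENNReal.tsum_mul_left]
    _ = ∑' J : ℤ, ∑' ρ : ℕ,
      ENNReal.ofReal ((2 : ℝ) ^ (J + 1 - (u : ℤ) - (ρ : ℤ))) *
        ((Hh c φ τ u ρ k (lev f J) x).ncard : ℝ≥0∞) := by
        refine tsum_congr (fun J => tsum_congr (fun ρ => ?_))
        rw [hcard ρ J, ← Finset.mul_sum, ← Finset.mul_sum, ← mul_assoc, ← mul_assoc,
          ← ENNReal.ofReal_mul (by positivity), ← ENNReal.ofReal_mul (by positivity)]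
        congr 2
        rw [show (J + 1 - (u : ℤ) - (ρ : ℤ)) = -(u : ℤ) + (J + 1) + -(ρ : ℤ) by ring,
          zpow_add₀ (by norm_num) (-(u : ℤ) + (J + 1)) (-(ρ : ℤ)),
          zpow_add₀ (by norm_num) (-(u : ℤ)) (J + 1), zpow_neg (2 : ℝ) (u : ℤ), zpow_natCast, one_div]

/-- change of the order of summation -/
lemma pig_reorder (F : ℕ → ℕ → ℤ → ℝ≥0∞) (l : ℤ) :
    ∑' u : ℕ, (if 2 ≤ u then ∑' J : ℤ, ∑' ρ : ℕ,
      ENNReal.ofReal ((2 : ℝ) ^ (J + 1 - (u : ℤ) - (ρ : ℤ))) * F u ρ J else 0) =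
    ∑' t : ℤ, ∑' ρ : ℕ, ENNReal.ofReal ((2 : ℝ) ^ (l + 1 - t)) *
      ∑' u : ℕ, (if 2 ≤ u then F u ρ (l - t + u + ρ) else 0) := by
  have e1 : ∀ u : ℕ, (if 2 ≤ u then ∑' J : ℤ, ∑' ρ : ℕ,
      ENNReal.ofReal ((2 : ℝ) ^ (J + 1 - (u : ℤ) - (ρ : ℤ))) * F u ρ J else 0) =
      ∑' ρ : ℕ, ∑' t : ℤ, ENNReal.ofReal ((2 : ℝ) ^ (l + 1 - t)) *
        (if 2 ≤ u then F u ρ (l - t + u + ρ) else 0) := by
    intro u
    split_ifs with hu
    · rw [ENNReal.tsum_comm]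
      refine tsum_congr (fun ρ => ?_)
      rw [← (Equiv.subLeft (l + (u : ℤ) + (ρ : ℤ))).tsum_eq]
      refine tsum_congr (fun t => ?_)
      simp only [Equiv.subLeft_apply]
      congr 2
      · congr 1
        ring
      · ring
    · simp
  rw [tsum_congr e1, ENNReal.tsum_comm]
  have e2 : ∀ ρ : ℕ, ∑' u : ℕ, ∑' t : ℤ, ENNReal.ofReal ((2 : ℝ) ^ (l + 1 - t)) *
        (if 2 ≤ u then F u ρ (l - t + u + ρ) else 0) =
      ∑' t : ℤ, ENNReal.ofReal ((2 : ℝ) ^ (l + 1 - t)) *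
        ∑' u : ℕ, (if 2 ≤ u then F u ρ (l - t + u + ρ) else 0) := by
    intro ρ
    rw [ENNReal.tsum_comm]
    refine tsum_congr (fun t => ?_)
    rw [ENNReal.tsum_mul_left]
  rw [tsum_congr e2, ENNReal.tsum_comm]


/-- the numbers `b T` -/
noncomputable def pig_b (p : ℝ) (C₂ Cρ : ℕ) (T : ℕ) : ℝ :=
  4 * C₂ * Cρ * T * ((Cρ + 1) * T + 1) * ((2 : ℝ) ^ (-(e1 p))) ^ T

lemma pig_b_nonneg (p : ℝ) (C₂ Cρ : ℕ) (T : ℕ) : 0 ≤ pig_b p C₂ Cρ T := by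
  unfold pig_b; positivity

lemma pig_b_summable (p : ℝ) (hp : p < 3) (C₂ Cρ : ℕ) : Summable (pig_b p C₂ Cρ) := by
  have he : 0 < e1 p := by unfold e1; linarith
  set r : ℝ := (2 : ℝ) ^ (-(e1 p)) with hr
  have hr0 : 0 < r := Real.rpow_pos_of_pos (by norm_num) _
  have hr1 : r < 1 := Real.rpow_lt_one_of_one_lt_of_neg (by norm_num) (by linarith)
  have hn : ‖r‖ < 1 := by rw [Real.norm_eq_abs, abs_of_pos hr0]; exact hr1
  have h1 := summable_pow_mul_geometric_of_norm_lt_one 1 hn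
  have h2 := summable_pow_mul_geometric_of_norm_lt_one 2 hn
  have h3 := (h2.mul_left (4 * (C₂ : ℝ) * Cρ * (Cρ + 1))).add (h1.mul_left (4 * (C₂ : ℝ) * Cρ))
  refine h3.congr (fun T => ?_)
  unfold pig_b
  rw [← hr]
  ring

lemma pig_real (p : ℝ) (C₂ Cρ T : ℕ) (l : ℤ) (ρ : ℕ) (hρ : ρ < Cρ * T) :
    (2 : ℝ) ^ (l + 1 - (T : ℤ)) * ((2 * (C₂ * (T + ρ + 1)) : ℕ) * (2 : ℝ) ^ ((1 - e1 p) * T)) ≤
      (2 : ℝ) ^ l * (4 * C₂ * ((Cρ + 1) * T + 1) * ((2 : ℝ) ^ (-(e1 p))) ^ T) := by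
  have e1' : (2 : ℝ) ^ (l + 1 - (T : ℤ)) * (2 : ℝ) ^ ((1 - e1 p) * T) =
      2 * ((2 : ℝ) ^ l * ((2 : ℝ) ^ (-(e1 p))) ^ T) := by
    rw [← Real.rpow_intCast, ← Real.rpow_intCast, ← Real.rpow_natCast, ← Real.rpow_mul (by norm_num),
      ← Real.rpow_add (by norm_num), ← Real.rpow_add (by norm_num)]
    have : (2 : ℝ) * (2 : ℝ) ^ ((l : ℝ) + -e1 p * (T : ℝ)) =
        (2 : ℝ) ^ (1 + ((l : ℝ) + -e1 p * (T : ℝ))) := by
      rw [Real.rpow_add (by norm_num) 1, Real.rpow_one]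
    rw [this]
    congr 1
    push_cast
    ring
  have h1 : ((2 * (C₂ * (T + ρ + 1)) : ℕ) : ℝ) ≤ 2 * (C₂ * ((Cρ + 1) * T + 1)) := by
    push_cast
    have h2 : (ρ : ℝ) ≤ Cρ * T := by exact_mod_cast hρ.le
    have h3 : (T : ℝ) + ρ + 1 ≤ (Cρ + 1) * T + 1 := by linarith
    have h4 : (0 : ℝ) ≤ C₂ := Nat.cast_nonneg _
    nlinarith [mul_le_mul_of_nonneg_left h3 h4]
  calc (2 : ℝ) ^ (l + 1 - (T : ℤ)) * ((2 * (C₂ * (T + ρ + 1)) : ℕ) * (2 : ℝ) ^ ((1 - e1 p) * T))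
      = ((2 * (C₂ * (T + ρ + 1)) : ℕ) : ℝ) *
          ((2 : ℝ) ^ (l + 1 - (T : ℤ)) * (2 : ℝ) ^ ((1 - e1 p) * T)) := by ring
    _ = ((2 * (C₂ * (T + ρ + 1)) : ℕ) : ℝ) * (2 * ((2 : ℝ) ^ l * ((2 : ℝ) ^ (-(e1 p))) ^ T)) := by
        rw [e1']
    _ ≤ (2 * (C₂ * ((Cρ + 1) * T + 1))) * (2 * ((2 : ℝ) ^ l * ((2 : ℝ) ^ (-(e1 p))) ^ T)) := by
        gcongr
    _ = _ := by ring

theorem hPIG (hYB : StYB) : StPIG := by
  intro φ τ p c hG hp2 hp3 C₂ Cρ t₁ hC₂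
  -- choice of `t₀`
  have hb := pig_b_summable p hp3 C₂ Cρ
  have ht : Tendsto (fun i => ∑' k, pig_b p C₂ Cρ (k + i)) atTop (𝓝 0) := tendsto_sum_nat_add _
  obtain ⟨i, hi1, hi2⟩ := ((ht.eventually (gt_mem_nhds (by norm_num : (0 : ℝ) < 1))).and
    (eventually_ge_atTop (t₁ + 1))).exists
  obtain ⟨t₀, rfl⟩ : ∃ t₀, i = t₀ + 1 := ⟨i - 1, by omega⟩
  refine ⟨t₀, by omega, ?_⟩
  intro f l k x hf hf0 hle
  by_contra hcon
  simp only [not_or, not_exists, not_and] at hcon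
  obtain ⟨n1, n2, n3, n4⟩ := hcon
  obtain ⟨K, hK, _⟩ := hf.2
  obtain ⟨N, hN⟩ := pow_unbounded_of_one_lt K (one_lt_two : (1 : ℝ) < 2)
  have h1 : ∀ x, f x < (2 : ℝ) ^ ((N : ℤ) - 1 + 1) := by
    intro x
    rw [sub_add_cancel, zpow_natCast]
    exact lt_of_le_of_lt ((le_abs_self _).trans (hK x)) hN
  set F : ℕ → ℕ → ℤ → ℝ≥0∞ := fun u ρ J => ((Hh c φ τ u ρ k (lev f J) x).ncard : ℝ≥0∞) with hF
  -- the main inequality
  have hmain : ENNReal.ofReal ((2 : ℝ) ^ l) ≤ ∑' t : ℤ, ∑' ρ : ℕ,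
      ENNReal.ofReal ((2 : ℝ) ^ (l + 1 - t)) *
      ∑' u : ℕ, (if 2 ≤ u then F u ρ (l - t + u + ρ) else 0) := by
    rw [← pig_reorder F l]
    refine hle.trans (ENNReal.tsum_le_tsum (fun u => ?_))
    split_ifs with hu
    · exact pig_Ht hYB φ τ c hG f hf l ((N : ℤ) - 1) k h1 x u
    · exact le_refl _
  -- empty sets
  have hFe : ∀ (u ρ : ℕ) (J : ℤ), ¬ (Hh c φ τ u ρ k (lev f J) x).Nonempty → F u ρ J = 0 := by
    intro u ρ J h
    rw [Set.not_nonempty_iff_eq_empty] at h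
    simp [hF, h]
  -- (F1)
  have F1 : ∀ (t : ℤ) (ρ : ℕ), t ≤ t₀ →
      ∑' u : ℕ, (if 2 ≤ u then F u ρ (l - t + u + ρ) else 0) = 0 := by
    intro t ρ ht
    rw [ENNReal.tsum_eq_zero]
    intro u
    split_ifs with hu
    · exact hFe _ _ _ (n1 t ρ u ht hu)
    · rfl
  -- (F2)
  have F2 : ∀ (T ρ : ℕ), t₀ ≤ T → Cρ * T ≤ ρ →
      ∑' u : ℕ, (if 2 ≤ u then F u ρ (l - (T : ℤ) + u + ρ) else 0) = 0 := by
    intro T ρ ht hρ
    rw [ENNReal.tsum_eq_zero]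
    intro u
    split_ifs with hu
    · exact hFe _ _ _ (n2 T ρ u ht hρ hu)
    · rfl
  -- (F3)
  have F3 : ∀ (T ρ : ℕ), t₀ ≤ T → ρ ≤ Cρ * T →
      ∑' u : ℕ, (if 2 ≤ u then F u ρ (l - (T : ℤ) + u + ρ) else 0) ≤
        ((2 * (C₂ * (T + ρ + 1)) : ℕ) : ℝ≥0∞) * ENNReal.ofReal ((2 : ℝ) ^ ((1 - e1 p) * T)) := by
    intro T ρ ht hρ
    classical
    set L : ℕ := C₂ * (T + ρ + 1) with hL
    let P : ℕ → Prop := fun u => 2 ≤ u ∧ (Hh c φ τ u ρ k (lev f (l - (T : ℤ) + u + ρ)) x).Nonempty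
    obtain ⟨U, hU1, hU2⟩ : ∃ U : Finset ℕ, U.card ≤ 2 * L ∧ ∀ u, P u → u ∈ U := by
      by_cases hex : ∃ u, L ≤ u ∧ P u
      · refine ⟨Finset.range L ∪ Finset.Ico (Nat.find hex) (Nat.find hex + L), ?_, ?_⟩
        · refine (Finset.card_union_le _ _).trans ?_
          rw [Finset.card_range, Nat.card_Ico]
          omega
        · intro u hu
          rw [Finset.mem_union, Finset.mem_range, Finset.mem_Ico]
          by_cases hlt : u < L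
          · exact Or.inl hlt
          · right
            have hmin : Nat.find hex ≤ u := Nat.find_min' hex ⟨not_lt.1 hlt, hu⟩
            refine ⟨hmin, ?_⟩
            by_contra hge
            obtain ⟨hf1, hf2⟩ := Nat.find_spec hex
            obtain ⟨s, hs⟩ := Nat.exists_eq_add_of_le hmin
            have hsL : L ≤ s := by omega
            refine n3 T ρ (Nat.find hex) s ht hρ hf1 hsL hf2.2 ?_
            have := hu.2
            rw [hs] at this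
            push_cast at this ⊢
            exact this
      · refine ⟨Finset.range L, by rw [Finset.card_range]; omega, ?_⟩
        intro u hu
        rw [Finset.mem_range]
        by_contra hge
        exact hex ⟨u, not_lt.1 hge, hu⟩
    have hsum : ∑' u : ℕ, (if 2 ≤ u then F u ρ (l - (T : ℤ) + u + ρ) else 0) =
        ∑ u ∈ U, (if 2 ≤ u then F u ρ (l - (T : ℤ) + u + ρ) else 0) := by
      refine tsum_eq_sum (fun u hu => ?_)
      split_ifs with h2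
      · refine hFe _ _ _ (fun hne => hu (hU2 u ⟨h2, hne⟩))
      · rfl
    rw [hsum]
    have hterm : ∀ u ∈ U, (if 2 ≤ u then F u ρ (l - (T : ℤ) + u + ρ) else 0) ≤
        ENNReal.ofReal ((2 : ℝ) ^ ((1 - e1 p) * T)) := by
      intro u _
      split_ifs with h2
      · have h3 := n4 T ρ u ht hρ h2
        rw [not_le] at h3
        rw [hF]
        simp only
        rw [← ENNReal.ofReal_natCast]
        exact ENNReal.ofReal_le_ofReal h3.le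
      · exact bot_le
    refine (Finset.sum_le_card_nsmul _ _ _ hterm).trans ?_
    rw [nsmul_eq_mul]
    gcongr
  -- the sum over `ρ`
  have hg : ∀ T : ℕ, t₀ ≤ T → ∑' ρ : ℕ, ENNReal.ofReal ((2 : ℝ) ^ (l + 1 - (T : ℤ))) *
      ∑' u : ℕ, (if 2 ≤ u then F u ρ (l - (T : ℤ) + u + ρ) else 0) ≤
        ENNReal.ofReal ((2 : ℝ) ^ l) * ENNReal.ofReal (pig_b p C₂ Cρ T) := by
    intro T hT
    rw [tsum_eq_sum (s := Finset.range (Cρ * T))]
    · have hterm : ∀ ρ ∈ Finset.range (Cρ * T), ENNReal.ofReal ((2 : ℝ) ^ (l + 1 - (T : ℤ))) *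
          ∑' u : ℕ, (if 2 ≤ u then F u ρ (l - (T : ℤ) + u + ρ) else 0) ≤
          ENNReal.ofReal ((2 : ℝ) ^ l * (4 * C₂ * ((Cρ + 1) * T + 1) *
            ((2 : ℝ) ^ (-(e1 p))) ^ T)) := by
        intro ρ hρ
        rw [Finset.mem_range] at hρ
        refine le_trans (mul_le_mul_right (F3 T ρ hT hρ.le) _) ?_
        rw [← ENNReal.ofReal_natCast, ← ENNReal.ofReal_mul (by positivity),
          ← ENNReal.ofReal_mul (by positivity)]
        exact ENNReal.ofReal_le_ofReal (pig_real p C₂ Cρ T l ρ hρ)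
      refine (Finset.sum_le_card_nsmul _ _ _ hterm).trans (le_of_eq ?_)
      rw [Finset.card_range, nsmul_eq_mul, ← ENNReal.ofReal_natCast,
        ← ENNReal.ofReal_mul (by positivity), ← ENNReal.ofReal_mul (by positivity)]
      congr 1
      unfold pig_b
      push_cast
      ring
    · intro ρ hρ
      rw [Finset.mem_range, not_lt] at hρ
      rw [F2 T ρ hT hρ, mul_zero]
  -- the sum over `t`
  have hinj : Function.Injective (fun m : ℕ => ((m + (t₀ + 1) : ℕ) : ℤ)) := by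
    intro a b hab
    simp only at hab
    omega
  have hfin : ∑' t : ℤ, ∑' ρ : ℕ,
      ENNReal.ofReal ((2 : ℝ) ^ (l + 1 - t)) *
      ∑' u : ℕ, (if 2 ≤ u then F u ρ (l - t + u + ρ) else 0) ≤
      ENNReal.ofReal ((2 : ℝ) ^ l) * ENNReal.ofReal (∑' m, pig_b p C₂ Cρ (m + (t₀ + 1))) := by
    rw [← hinj.tsum_eq]
    · rw [ENNReal.ofReal_tsum_of_nonneg (fun m => pig_b_nonneg _ _ _ _)
        ((summable_nat_add_iff (t₀ + 1)).2 hb), ← ENNReal.tsum_mul_left]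
      refine ENNReal.tsum_le_tsum (fun m => ?_)
      exact hg (m + (t₀ + 1)) (by omega)
    · intro t ht
      rw [Function.mem_support] at ht
      by_cases h2 : t ≤ t₀
      · exfalso
        apply ht
        rw [ENNReal.tsum_eq_zero]
        intro ρ
        rw [F1 t ρ h2, mul_zero]
      · refine ⟨(t - (t₀ + 1)).toNat, ?_⟩
        simp only
        omega
  have hlt : ENNReal.ofReal ((2 : ℝ) ^ l) * ENNReal.ofReal (∑' m, pig_b p C₂ Cρ (m + (t₀ + 1))) <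
      ENNReal.ofReal ((2 : ℝ) ^ l) := by
    rw [← ENNReal.ofReal_mul (by positivity)]
    refine (ENNReal.ofReal_lt_ofReal_iff (by positivity)).2 ?_
    have : (0 : ℝ) < (2 : ℝ) ^ l := by positivity
    nlinarith
  exact absurd (hmain.trans hfin) (not_le.2 hlt)

end Pool.Agent.Helper14.EQ
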