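import Pool.Agent.Helper20.EQ.St2

/-!
# Project EQ (MP_cb927e_an): module PPF (all pairs of two classes)
-/

set_option autoImplicit false

open MeasureTheory Set Filter Topology
open scoped ENNReal RealInnerProductSpace

namespace Pool.Agent.Helper14.EQ

open Pool.Agent.Helper68.LM (Pl BB Bd Av HL ft fm DQ)
open Pool.Agent.Helper20.RG Pool.Agent.Helper20.EQ
open Pool.Agent.Helper68.EP (elt GapP StGPG)

/-- Chebyshev for squares -/
lemma ppf_cheb (f : Pl → ℝ) (hf : Measurable f) (η : ℝ) (hη : 0 < η) :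
    volume {x | η / 4 < |f x|} ≤ ENNReal.ofReal (16 / η ^ 2) * ∫⁻ x, ‖f x‖ₑ ^ 2 := by
  have hpos : 0 < (η / 4) ^ 2 := by positivity
  have hm : AEMeasurable (fun x => ‖f x‖ₑ ^ 2) volume := (hf.enorm.pow_const 2).aemeasurable
  have h0 : ENNReal.ofReal ((η / 4) ^ 2) ≠ 0 := by
    rw [Ne, ENNReal.ofReal_eq_zero]; linarith
  have h1 := meas_ge_le_lintegral_div hm h0 ENNReal.ofReal_ne_top
  have hsub : {x | η / 4 < |f x|} ⊆ {x | ENNReal.ofReal ((η / 4) ^ 2) ≤ ‖f x‖ₑ ^ 2} := by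
    intro x hx
    simp only [Set.mem_ofPred_eq] at hx ⊢
    rw [← ofReal_norm, ← ENNReal.ofReal_pow (norm_nonneg _), Real.norm_eq_abs]
    apply ENNReal.ofReal_le_ofReal
    have : 0 ≤ η / 4 := by positivity
    exact pow_le_pow_left₀ this hx.le 2
  refine (measure_mono hsub).trans (h1.trans (le_of_eq ?_))
  rw [ENNReal.div_eq_inv_mul, ← ENNReal.ofReal_inv_of_pos hpos]
  congr 2
  field_simp
  ring

/-- the number `K` of level `u` -/
lemma ppf_KA (A p : ℝ) (hA : 0 < A) (hp : 1 < p) (u : ℕ) :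
    ((KA (A ^ (1 / p)) p u : ℕ) : ℝ) + u + 1 ≤ (3 + A) * (2 : ℝ) ^ (p * u) := by
  have hp0 : 0 < p := by linarith
  have h1 : (A ^ (1 / p) * (2 : ℝ) ^ u) ^ p = A * (2 : ℝ) ^ (p * u) := by
    rw [Real.mul_rpow (Real.rpow_nonneg hA.le _) (by positivity), ← Real.rpow_mul hA.le,
      one_div, inv_mul_cancel₀ hp0.ne', Real.rpow_one, ← Real.rpow_natCast, ← Real.rpow_mul (by norm_num),
      mul_comm (u : ℝ) p]
  have h2 : ((⌈(A ^ (1 / p) * (2 : ℝ) ^ u) ^ p⌉₊ : ℕ) : ℝ) ≤ A * (2 : ℝ) ^ (p * u) + 1 := by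
    have := (Nat.ceil_lt_add_one (a := (A ^ (1 / p) * (2 : ℝ) ^ u) ^ p) (by rw [h1]; positivity)).le
    rw [h1] at this ⊢
    exact this
  have h3 : ((u : ℝ) + 1) ≤ (2 : ℝ) ^ (p * u) := by
    have h4 : (u + 1 : ℕ) ≤ 2 ^ u := Nat.lt_two_pow_self
    have h5 : ((u : ℝ) + 1) ≤ (2 : ℝ) ^ u := by exact_mod_cast h4
    refine h5.trans ?_
    rw [← Real.rpow_natCast]
    apply Real.rpow_le_rpow_of_exponent_le (by norm_num)
    have : (0 : ℝ) ≤ u := Nat.cast_nonneg _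
    nlinarith
  have h6 : (1 : ℝ) ≤ (2 : ℝ) ^ (p * u) := by
    apply Real.one_le_rpow (by norm_num)
    positivity
  unfold KA
  push_cast
  nlinarith

theorem hPPF (hPPO : StPPO) (hALL : StALL) (hFAM : StFAM) (hSYS : StSYS) (hGPG : StGPG) :
    StPPF := by
  intro φ τ A p c hG hA hgap hp
  have hp0 : 0 < p := by linarith
  set A₁ : ℝ := A ^ (1 / p) with hA₁
  have hA₁pos : 0 < A₁ := Real.rpow_pos_of_pos hA _
  have hGap : Gap A₁ p τ := hGPG τ A p hA hp0 hgap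
  obtain ⟨Cf, hCf1, hCf⟩ := hFAM 200 (‖c‖ + |φ 0| + 3) (by norm_num)
  obtain ⟨Ca, hCa0, hCa⟩ := hALL 200 (by norm_num)
  obtain ⟨Cp, hCp0, hCp⟩ := hPPO
  have hsys : ∀ u : ℕ, 2 ≤ u → Sys u (sl τ u) (ce c φ u) (mm τ u) (mp τ u) 200
      (‖c‖ + |φ 0| + 3) (KA A₁ p u) A₁ p := fun u hu =>
    (hSYS φ τ A₁ p c hG hGap hA₁pos hp0 u (by omega)).2 hu
  set C : ℝ := 256 * Cf + 256 * Ca * (3 + A) + 16 * Cp * Ca * (3 + A) with hC
  have hx1 : 0 < Ca * (3 + A) := by positivity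
  have hx2 : 0 < Cp * (Ca * (3 + A)) := by positivity
  have hC1 : 1 ≤ C := by rw [hC]; nlinarith
  have hCCf : Cf ≤ C := by rw [hC]; nlinarith
  refine ⟨C, hC1, ?_⟩
  intro u u' h n η D' D₁ g g' G hu huu' hn hη1 hη2 hD' hD₁ hBg hBg' hg hg' hLoc
  have hη : 0 < η := lt_of_lt_of_le (by positivity) hη1
  have hu' : 2 ≤ u' := hu.trans huu'
  -- families
  have hF := hCf u (sl τ u) (ce c φ u) (mm τ u) (mp τ u) (KA A₁ p u) A₁ p (hsys u hu) hA₁pos.le g hBg hg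
  have hF' := hCf u' (sl τ u') (ce c φ u') (mm τ u') (mp τ u') (KA A₁ p u') A₁ p (hsys u' hu')
    hA₁pos.le g' hBg' hg'
  -- abbreviations
  set D₀ : ℝ := Cf * D' with hD₀
  have hD₀0 : 0 ≤ D₀ := by positivity
  set M₁ : ℝ≥0∞ := ENNReal.ofReal (Cp * D₁) with hM₁
  set M₂ : ℝ≥0∞ := ENNReal.ofReal ((256 * D₀ / (η ^ 2 * D₁)) ^ (n - 1) * (16 / D₁)) with hM₂
  set q : ℝ≥0∞ := ENNReal.ofReal (16 / η ^ 2) with hq
  let wd : ℕ → ℕ → ℕ := fun a b => ga (sl τ u a) (sl τ u' b) h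
  let I₁ : ℤ → ℕ → ℕ → ℕ → ℝ≥0∞ := fun k a b i => ∫⁻ x, ‖Zc c φ τ u (i * wd a b) k a g x‖ₑ ^ 2
  let I₂ : ℤ → ℕ → ℕ → ℝ≥0∞ := fun k a b => ∫⁻ x, ‖Zc c φ τ u' (n * wd a b) k b g' x‖ₑ ^ 2
  -- one pair
  have hpair : ∀ (k : ℤ) (a b : ℕ), a < 2 ^ u → b < 2 ^ u' → sl τ u a ≠ sl τ u' b →
      volume {x | x ∈ G ∧ ∀ i ∈ Finset.Icc 1 n, η / 2 ≤ |Zc c φ τ u (i * wd a b) k a g x| ∧
        η / 2 ≤ |Zc c φ τ u' (i * wd a b) k b g' x|} ≤
      M₁ * (∑ i ∈ Finset.Icc 1 n, q * I₁ k a b i) + M₂ * (q * I₂ k a b) := by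
    intro k a b ha hb hne
    have h1 := hCp n h k (sl τ u a) (sl τ u' b) η D₀ D₁ (fun w => Zc c φ τ u w k a g)
      (fun w => Zc c φ τ u' w k b g') G hn (hG.1 _) (hG.1 _) hne hη1 hη2 hD₀0 hD₁
      (fun w => ⟨hF.cont w k a ha, hF'.cont w k b hb⟩)
      (fun w x lam => hF.inv w k a x lam ha) (fun w x lam => hF'.inv w k b x lam hb) ?_
    · refine h1.trans ?_
      gcongr with i hi
      · exact ppf_cheb _ (hF.cont _ k a ha).measurable η hη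
      · exact ppf_cheb _ (hF'.cont _ k b hb).measurable η hη
    · intro w x hx
      have h2 := hF'.lb w k x
      have h3 : ∫⁻ y in Sq x (4 * (2 : ℝ) ^ (k + (w : ℤ))), ‖Zc c φ τ u' w k b g' y‖ₑ ^ 2 ≤
          ∑ j ∈ Finset.range (2 ^ u'), ∫⁻ y in Sq x (4 * (2 : ℝ) ^ (k + (w : ℤ))),
            ‖Zc c φ τ u' w k j g' y‖ₑ ^ 2 :=
        Finset.single_le_sum (f := fun j => ∫⁻ y in Sq x (4 * (2 : ℝ) ^ (k + (w : ℤ))),
            ‖Zc c φ τ u' w k j g' y‖ₑ ^ 2) (fun _ _ => bot_le) (Finset.mem_range.2 hb)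
      refine h3.trans (h2.trans ?_)
      have h4 : ∫⁻ y in Sq x (Cf * (2 : ℝ) ^ (k + (w : ℤ))), ‖g' y‖ₑ ^ 2 ≤
          ∫⁻ y in Sq x (C * (2 : ℝ) ^ (k + (w : ℤ))), ‖g' y‖ₑ := by
        have hss : Sq x (Cf * (2 : ℝ) ^ (k + (w : ℤ))) ⊆ Sq x (C * (2 : ℝ) ^ (k + (w : ℤ))) := by
          intro y hy
          have hle : Cf * (2 : ℝ) ^ (k + (w : ℤ)) ≤ C * (2 : ℝ) ^ (k + (w : ℤ)) := by gcongr
          exact ⟨hy.1.trans hle, hy.2.trans hle⟩
        refine (lintegral_mono (fun y => ?_)).trans (lintegral_mono_set hss)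
        have hle1 : ‖g' y‖ₑ ≤ 1 := by
          rw [← ofReal_norm, Real.norm_eq_abs, abs_of_nonneg (hg' y).1]
          exact ENNReal.ofReal_le_one.2 (hg' y).2
        calc ‖g' y‖ₑ ^ 2 = ‖g' y‖ₑ * ‖g' y‖ₑ := sq _
          _ ≤ 1 * ‖g' y‖ₑ := by gcongr
          _ = ‖g' y‖ₑ := one_mul _
      calc ENNReal.ofReal Cf * ∫⁻ y in Sq x (Cf * (2 : ℝ) ^ (k + (w : ℤ))), ‖g' y‖ₑ ^ 2
          ≤ ENNReal.ofReal Cf * ENNReal.ofReal (D' * (4 : ℝ) ^ (k + (w : ℤ))) := by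
            gcongr
            exact h4.trans (hLoc x hx (k + w))
        _ = ENNReal.ofReal (D₀ * (4 : ℝ) ^ (k + (w : ℤ))) := by
            rw [← ENNReal.ofReal_mul (by linarith), hD₀]
            ring_nf
  -- union over the pairs
  have hun : ∀ k : ℤ, volume {x | x ∈ G ∧ ∃ a < 2 ^ u, ∃ b < 2 ^ u', sl τ u a ≠ sl τ u' b ∧
        ∀ i ∈ Finset.Icc 1 n,
          η / 2 ≤ |Zc c φ τ u (i * ga (sl τ u a) (sl τ u' b) h) k a g x| ∧
          η / 2 ≤ |Zc c φ τ u' (i * ga (sl τ u a) (sl τ u' b) h) k b g' x|} ≤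
      ∑ a ∈ Finset.range (2 ^ u), ∑ b ∈ Finset.range (2 ^ u'),
        (M₁ * (∑ i ∈ Finset.Icc 1 n, q * I₁ k a b i) + M₂ * (q * I₂ k a b)) := by
    intro k
    have hss : {x | x ∈ G ∧ ∃ a < 2 ^ u, ∃ b < 2 ^ u', sl τ u a ≠ sl τ u' b ∧
        ∀ i ∈ Finset.Icc 1 n,
          η / 2 ≤ |Zc c φ τ u (i * ga (sl τ u a) (sl τ u' b) h) k a g x| ∧
          η / 2 ≤ |Zc c φ τ u' (i * ga (sl τ u a) (sl τ u' b) h) k b g' x|} ⊆
        ⋃ a ∈ Finset.range (2 ^ u), ⋃ b ∈ Finset.range (2 ^ u'),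
          {x | sl τ u a ≠ sl τ u' b ∧ (x ∈ G ∧ ∀ i ∈ Finset.Icc 1 n,
            η / 2 ≤ |Zc c φ τ u (i * wd a b) k a g x| ∧
            η / 2 ≤ |Zc c φ τ u' (i * wd a b) k b g' x|)} := by
      rintro x ⟨hx, a, ha, b, hb, hne, hi⟩
      simp only [mem_iUnion]
      exact ⟨a, Finset.mem_range.2 ha, b, Finset.mem_range.2 hb, hne, hx, hi⟩
    refine (measure_mono hss).trans ((measure_biUnion_finset_le _ _).trans ?_)
    refine Finset.sum_le_sum (fun a ha => (measure_biUnion_finset_le _ _).trans ?_)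
    refine Finset.sum_le_sum (fun b hb => ?_)
    by_cases hne : sl τ u a = sl τ u' b
    · have : {x | sl τ u a ≠ sl τ u' b ∧ (x ∈ G ∧ ∀ i ∈ Finset.Icc 1 n,
            η / 2 ≤ |Zc c φ τ u (i * wd a b) k a g x| ∧
            η / 2 ≤ |Zc c φ τ u' (i * wd a b) k b g' x|)} = ∅ := by
        ext x
        simp [hne]
      rw [this, measure_empty]
      exact bot_le
    · refine le_trans (measure_mono ?_) (hpair k a b (Finset.mem_range.1 ha) (Finset.mem_range.1 hb) hne)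
      rintro x ⟨_, hx⟩
      exact hx
  -- the sum over the scales
  have hB₁ : ∀ (b i : ℕ), ∑' k : ℤ, ∑ a ∈ Finset.range (2 ^ u), I₁ k a b i ≤
      ENNReal.ofReal (Ca * ((KA A₁ p u : ℕ) + u + 1)) * ∫⁻ x, ‖g x‖ₑ ^ 2 := fun b i =>
    hCa u (sl τ u) (ce c φ u) (mm τ u) (mp τ u) (‖c‖ + |φ 0| + 3) (KA A₁ p u) A₁ p (hsys u hu)
      (fun a => i * wd a b) g hBg
  have hB₂ : ∀ a : ℕ, ∑' k : ℤ, ∑ b ∈ Finset.range (2 ^ u'), I₂ k a b ≤
      ENNReal.ofReal (Ca * ((KA A₁ p u' : ℕ) + u' + 1)) * ∫⁻ x, ‖g' x‖ₑ ^ 2 := fun a =>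
    hCa u' (sl τ u') (ce c φ u') (mm τ u') (mp τ u') (‖c‖ + |φ 0| + 3) (KA A₁ p u') A₁ p
      (hsys u' hu') (fun b => n * wd a b) g' hBg'
  have hsum : ∑' k : ℤ, ∑ a ∈ Finset.range (2 ^ u), ∑ b ∈ Finset.range (2 ^ u'),
        (M₁ * (∑ i ∈ Finset.Icc 1 n, q * I₁ k a b i) + M₂ * (q * I₂ k a b)) =
      M₁ * q * (∑ b ∈ Finset.range (2 ^ u'), ∑ i ∈ Finset.Icc 1 n,
        ∑' k : ℤ, ∑ a ∈ Finset.range (2 ^ u), I₁ k a b i) +
      M₂ * q * (∑ a ∈ Finset.range (2 ^ u), ∑' k : ℤ, ∑ b ∈ Finset.range (2 ^ u'), I₂ k a b) := by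
    have e1 : ∀ k : ℤ, ∑ a ∈ Finset.range (2 ^ u), ∑ b ∈ Finset.range (2 ^ u'),
        (M₁ * (∑ i ∈ Finset.Icc 1 n, q * I₁ k a b i) + M₂ * (q * I₂ k a b)) =
        M₁ * q * (∑ b ∈ Finset.range (2 ^ u'), ∑ i ∈ Finset.Icc 1 n,
          ∑ a ∈ Finset.range (2 ^ u), I₁ k a b i) +
        M₂ * q * (∑ a ∈ Finset.range (2 ^ u), ∑ b ∈ Finset.range (2 ^ u'), I₂ k a b) := by
      intro k
      simp only [Finset.sum_add_distrib]
      congr 1
      · rw [Finset.sum_comm]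
        simp only [Finset.mul_sum]
        refine Finset.sum_congr rfl (fun b _ => ?_)
        rw [Finset.sum_comm]
        refine Finset.sum_congr rfl (fun i _ => Finset.sum_congr rfl (fun a _ => ?_))
        ring
      · simp only [Finset.mul_sum]
        refine Finset.sum_congr rfl (fun a _ => Finset.sum_congr rfl (fun b _ => ?_))
        ring
    rw [tsum_congr e1, ENNReal.tsum_add, ENNReal.tsum_mul_left, ENNReal.tsum_mul_left]
    congr 2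
    · rw [Summable.tsum_finsetSum (fun _ _ => ENNReal.summable)]
      refine Finset.sum_congr rfl (fun b _ => ?_)
      rw [Summable.tsum_finsetSum (fun _ _ => ENNReal.summable)]
    · rw [Summable.tsum_finsetSum (fun _ _ => ENNReal.summable)]
  refine (ENNReal.tsum_le_tsum hun).trans ?_
  rw [hsum]
  have hKu := ppf_KA A p hA hp u
  have hKu' := ppf_KA A p hA hp u'
  rw [← hA₁] at hKu hKu'
  refine add_le_add ?_ ?_
  · -- first term
    calc M₁ * q * (∑ b ∈ Finset.range (2 ^ u'), ∑ i ∈ Finset.Icc 1 n,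
          ∑' k : ℤ, ∑ a ∈ Finset.range (2 ^ u), I₁ k a b i)
        ≤ M₁ * q * (∑ b ∈ Finset.range (2 ^ u'), ∑ i ∈ Finset.Icc 1 n,
          ENNReal.ofReal (Ca * ((KA A₁ p u : ℕ) + u + 1)) * ∫⁻ x, ‖g x‖ₑ ^ 2) := by
          gcongr with b _ i _
          exact hB₁ b i
      _ = ENNReal.ofReal (Cp * D₁ * (16 / η ^ 2) * (2 ^ u' * (n * (Ca * ((KA A₁ p u : ℕ) + u + 1))))) *
          ∫⁻ x, ‖g x‖ₑ ^ 2 := by
          rw [Finset.sum_const, Finset.sum_const, Finset.card_range, Nat.card_Icc, hM₁, hq,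
            Nat.add_sub_cancel, nsmul_eq_mul, nsmul_eq_mul,
            ENNReal.ofReal_mul (p := Cp * D₁ * (16 / η ^ 2)) (by positivity),
            ENNReal.ofReal_mul (p := Cp * D₁) (by positivity),
            ENNReal.ofReal_mul (p := (2 : ℝ) ^ u') (by positivity),
            ENNReal.ofReal_mul (p := (n : ℝ)) (by positivity),
            ENNReal.ofReal_pow (by norm_num : (0 : ℝ) ≤ 2), ENNReal.ofReal_natCast]
          simp only [ENNReal.ofReal_ofNat]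
          push_cast
          ring
      _ ≤ ENNReal.ofReal (C * n * (2 : ℝ) ^ u' * D₁ / η ^ 2 * (2 : ℝ) ^ (p * u)) *
          ∫⁻ x, ‖g x‖ₑ ^ 2 := by
          gcongr ENNReal.ofReal ?_ * _
          have e1 : Cp * D₁ * (16 / η ^ 2) * (2 ^ u' * (n * (Ca * ((KA A₁ p u : ℕ) + u + 1)))) ≤
              Cp * D₁ * (16 / η ^ 2) * (2 ^ u' * (n * (Ca * ((3 + A) * (2 : ℝ) ^ (p * u))))) := by
            gcongr
          refine e1.trans ?_
          have e2 : Cp * D₁ * (16 / η ^ 2) * (2 ^ u' * (n * (Ca * ((3 + A) * (2 : ℝ) ^ (p * u))))) =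
              (16 * Cp * Ca * (3 + A)) * n * (2 : ℝ) ^ u' * D₁ / η ^ 2 * (2 : ℝ) ^ (p * u) := by
            ring
          rw [e2]
          gcongr
          rw [hC]
          nlinarith
  · calc M₂ * q * (∑ a ∈ Finset.range (2 ^ u), ∑' k : ℤ, ∑ b ∈ Finset.range (2 ^ u'), I₂ k a b)
        ≤ M₂ * q * (∑ a ∈ Finset.range (2 ^ u),
          ENNReal.ofReal (Ca * ((KA A₁ p u' : ℕ) + u' + 1)) * ∫⁻ x, ‖g' x‖ₑ ^ 2) := by
          gcongr with a _
          exact hB₂ a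
      _ = ENNReal.ofReal (((256 * D₀ / (η ^ 2 * D₁)) ^ (n - 1) * (16 / D₁)) * (16 / η ^ 2) *
            (2 ^ u * (Ca * ((KA A₁ p u' : ℕ) + u' + 1)))) * ∫⁻ x, ‖g' x‖ₑ ^ 2 := by
          rw [Finset.sum_const, Finset.card_range, hM₂, hq, nsmul_eq_mul,
            ENNReal.ofReal_mul (p := (256 * D₀ / (η ^ 2 * D₁)) ^ (n - 1) * (16 / D₁) * (16 / η ^ 2))
              (by positivity),
            ENNReal.ofReal_mul (p := (256 * D₀ / (η ^ 2 * D₁)) ^ (n - 1) * (16 / D₁)) (by positivity),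
            ENNReal.ofReal_mul (p := (2 : ℝ) ^ u) (by positivity),
            ENNReal.ofReal_pow (by norm_num : (0 : ℝ) ≤ 2)]
          simp only [ENNReal.ofReal_ofNat]
          push_cast
          ring
      _ ≤ ENNReal.ofReal (C * (2 : ℝ) ^ u * (C * D' / (η ^ 2 * D₁)) ^ (n - 1) / D₁ / η ^ 2 *
          (2 : ℝ) ^ (p * u')) * ∫⁻ x, ‖g' x‖ₑ ^ 2 := by
          gcongr ENNReal.ofReal ?_ * _
          have e00 : 256 * D₀ ≤ C * D' := by
            rw [hD₀, ← mul_assoc]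
            refine mul_le_mul_of_nonneg_right ?_ hD'
            rw [hC]
            nlinarith
          have e0 : (256 * D₀ / (η ^ 2 * D₁)) ^ (n - 1) ≤ (C * D' / (η ^ 2 * D₁)) ^ (n - 1) :=
            pow_le_pow_left₀ (by positivity) (div_le_div_of_nonneg_right e00 (by positivity)) _
          have e1 : ((256 * D₀ / (η ^ 2 * D₁)) ^ (n - 1) * (16 / D₁)) * (16 / η ^ 2) *
              (2 ^ u * (Ca * ((KA A₁ p u' : ℕ) + u' + 1))) ≤
              ((C * D' / (η ^ 2 * D₁)) ^ (n - 1) * (16 / D₁)) * (16 / η ^ 2) *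
              (2 ^ u * (Ca * ((3 + A) * (2 : ℝ) ^ (p * u')))) := by
            gcongr
          refine e1.trans ?_
          have e2 : ((C * D' / (η ^ 2 * D₁)) ^ (n - 1) * (16 / D₁)) * (16 / η ^ 2) *
              (2 ^ u * (Ca * ((3 + A) * (2 : ℝ) ^ (p * u')))) =
              (256 * Ca * (3 + A)) * (2 : ℝ) ^ u * (C * D' / (η ^ 2 * D₁)) ^ (n - 1) / D₁ / η ^ 2 *
                (2 : ℝ) ^ (p * u') := by
            ring
          rw [e2]
          gcongr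
          rw [hC]
          nlinarith

end Pool.Agent.Helper14.EQ
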